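import Pool.Agent.helper62.HF.SpecV

set_option autoImplicit false

open scoped MatrixGroups ContDiff Topology UpperHalfPlane ComplexConjugate
open UpperHalfPlane MeasureTheory Filter Set

namespace Pool.Agent.HV

open Pool.Agent.RS Pool.Agent.MS
open Pool.Agent.EN (XG MG mkX mkM fl pr)

theorem FRB_nn (F : Set ℍ) (u : ℍ → ℂ) : 0 ≤ nn F u :=
  integral_nonneg fun _ => by positivity

/-- scaling of the profile -/
theorem FRB_scale (F : Set ℍ) (α β : ℝ → ℝ) (r t : ℝ) (u : ℍ → ℂ) :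
    qn F (pc (fun x => t * β x) α) r u = t ^ 2 * qn F (pc β α) r u := by
  have h1 : ∀ g, Wf (pk r (pc (fun x => t * β x) α)) u g = (t : ℂ) * Wf (pk r (pc β α)) u g := by
    intro g
    unfold Wf
    rw [← integral_const_mul]
    refine integral_congr_ae (Filter.Eventually.of_forall fun z => ?_)
    show pk r (pc (fun x => t * β x) α) z * u (g • z) = (t : ℂ) * (pk r (pc β α) z * u (g • z))
    unfold pk pc
    push_cast
    ring
  unfold qn iR
  rw [← integral_const_mul]
  refine integral_congr_ae (Filter.Eventually.of_forall fun g => ?_)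
  show ‖Wf (pk r (pc (fun x => t * β x) α)) u g‖ ^ 2 = t ^ 2 * ‖Wf (pk r (pc β α)) u g‖ ^ 2
  rw [h1, norm_mul, mul_pow, Complex.norm_real, Real.norm_eq_abs, sq_abs]

theorem FRB_zero (β : ℝ → ℝ) (hβ : SB (1 / 4) β) (h : ∫ x, β x ^ 2 = 0) : ∀ x, β x = 0 := by
  have hc : Continuous β := hβ.1.continuous
  have hcs : HasCompactSupport (fun x => β x ^ 2) := by
    apply HasCompactSupport.intro (isCompact_Icc (a := -(1 / 4 : ℝ)) (b := 1 / 4))
    intro x hx
    by_contra hne
    have h1 : β x ≠ 0 := by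
      intro h0; exact hne (by simp [h0])
    exact hx (abs_le.1 (hβ.2 x h1))
  by_contra hne
  obtain ⟨x, hx⟩ := not_forall.1 hne
  have hpos : 0 < ∫ x, β x ^ 2 := by
    apply Continuous.integral_pos_of_hasCompactSupport_nonneg_nonzero (hc.pow 2) hcs
      (fun x => sq_nonneg _) (x := x)
    exact pow_ne_zero 2 hx
  linarith

theorem FRB_proof (h : MS.NM3_stmt) : FRB_stmt := by
  intro Γ F α β hΓ hF hα hβ η hη
  have hI0 : 0 ≤ ∫ x, β x ^ 2 := integral_nonneg fun x => sq_nonneg _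
  rcases eq_or_lt_of_le hI0 with hz | hpos
  · refine ⟨1, le_rfl, fun r _ u _ => ?_⟩
    have h0 := FRB_zero β hβ hz.symm
    have h1 : qn F (pc β α) r u = 0 := by
      have h2 : β = fun x => 0 * β x := by
        funext x; rw [h0 x]; ring
      rw [h2, FRB_scale]
      ring
    rw [h1, ← hz]
    have := FRB_nn F u
    nlinarith
  · obtain ⟨I, hI⟩ : ∃ I : ℝ, I = ∫ x, β x ^ 2 := ⟨_, rfl⟩
    rw [← hI] at hpos ⊢
    have ht0 : 0 < √I := Real.sqrt_pos.2 hpos
    have htt : √I ^ 2 = I := Real.sq_sqrt hpos.le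
    have hBB : BB (1 / 4) (fun x => (√I)⁻¹ * β x) := by
      refine ⟨⟨contDiff_const.mul hβ.1, fun x hx => hβ.2 x (right_ne_zero_of_mul hx)⟩, ?_⟩
      have h1 : (fun x => ((√I)⁻¹ * β x) ^ 2) = fun x => (√I)⁻¹ ^ 2 * β x ^ 2 := by
        funext x; ring
      rw [h1, integral_const_mul, ← hI, inv_pow, htt]
      exact inv_mul_cancel₀ hpos.ne'
    obtain ⟨r0, hr0, hr⟩ := h Γ F α (fun x => (√I)⁻¹ * β x) hΓ hF hα hBB (η / (1 + I)) (by positivity)
    refine ⟨r0, hr0, fun r hr1 u hu => ?_⟩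
    have h2 := (hr r hr1).1 u hu
    rw [FRB_scale, inv_pow, htt] at h2
    have h3 : r * qn F (pc β α) r u = I * (r * (I⁻¹ * qn F (pc β α) r u)) := by
      field_simp
    rw [h3]
    have h4 : I * (r * (I⁻¹ * qn F (pc β α) r u)) ≤ I * ((1 + η / (1 + I)) * nn F u) :=
      mul_le_mul_of_nonneg_left h2 hpos.le
    refine h4.trans ?_
    have h5 : I * (1 + η / (1 + I)) ≤ I + η := by
      have h6 : I * (η / (1 + I)) ≤ η := by
        rw [← mul_div_assoc, div_le_iff₀ (by linarith)]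
        nlinarith
      linarith
    calc I * ((1 + η / (1 + I)) * nn F u) = (I * (1 + η / (1 + I))) * nn F u := by ring
      _ ≤ (I + η) * nn F u := mul_le_mul_of_nonneg_right h5 (FRB_nn F u)

end Pool.Agent.HV
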