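import Pool.Agent.helper19.HF.SpecA

/-! # Row hf:EXT (MP_bf63dc_nt): the extremal step -/

set_option autoImplicit false

open Finset

namespace Pool.Agent.HF

open Classical in
/-- a progression of length `l k` is the union of `k` progressions of length `l` with step `s k` -/
theorem EXT_split (g : ℕ → Prop) (Y s l k : ℕ) (hk : 1 ≤ k) :
    cw g Y s (l * k) = ∑ j ∈ range k, cw g (Y + s * j) (s * k) l := by
  unfold cw
  rw [Finset.card_eq_sum_card_fiberwise (f := fun x => x % k) (t := range k)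
    (fun x _ => Finset.mem_range.2 (Nat.mod_lt x (by omega)))]
  apply Finset.sum_congr rfl
  intro j hj
  rw [Finset.mem_range] at hj
  symm
  apply Finset.card_bij (fun x _ => k * x + j)
  · intro x hx
    rw [Finset.mem_filter, Finset.mem_range] at hx
    rw [Finset.mem_filter, Finset.mem_filter, Finset.mem_range]
    refine ⟨⟨?_, ?_⟩, ?_⟩
    · have h1 : k * (x + 1) ≤ k * l := Nat.mul_le_mul_left k hx.1
      have h2 : k * (x + 1) = k * x + k := by ring
      have h3 : k * l = l * k := by ring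
      omega
    · have h1 : Y + s * (k * x + j) = Y + s * j + s * k * x := by ring
      rw [h1]
      exact hx.2
    · rw [Nat.mul_add_mod]
      exact Nat.mod_eq_of_lt hj
  · intro x _ x' _ h
    have h1 : k * x = k * x' := by omega
    exact Nat.eq_of_mul_eq_mul_left (by omega) h1
  · intro y hy
    rw [Finset.mem_filter, Finset.mem_filter, Finset.mem_range] at hy
    obtain ⟨⟨hy1, hy2⟩, hy3⟩ := hy
    have h1 : k * (y / k) + j = y := by
      rw [← hy3]
      exact Nat.div_add_mod y k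
    refine ⟨y / k, ?_, h1⟩
    rw [Finset.mem_filter, Finset.mem_range]
    refine ⟨?_, ?_⟩
    · exact Nat.div_lt_of_lt_mul (by rw [mul_comm]; exact hy1)
    · have h2 : Y + s * j + s * k * (y / k) = Y + s * y := by
        conv_rhs => rw [← h1]
        ring
      rw [h2]
      exact hy2

theorem EXT : EXT_stmt := by
  intro hFEK g D hD Bad hBad ε hε
  have hF : ∀ r : ℕ, ∃ γ : ℝ, 0 ≤ γ ∧ γ ≤ 1 ∧
      (∀ l : ℕ, ∃ Y, D ∣ Y ∧ (cw g Y (D * r) l : ℝ) ≤ γ * l) ∧
      ∀ ε : ℝ, 0 < ε → ∃ l₀ : ℕ, ∀ l : ℕ, l₀ ≤ l → ∀ Y, D ∣ Y → (γ - ε) * l ≤ cw g Y (D * r) l := by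
    intro r
    exact hFEK g (fun Y => D ∣ Y) (D * r) ⟨0, dvd_zero D⟩ (fun Y hY => dvd_add hY (dvd_mul_right D r))
  choose γ h0 h1 hlow hhigh using hF
  have hmono : ∀ r k : ℕ, 1 ≤ k → γ (r * k) ≤ γ r := by
    intro r k hk
    by_contra hc
    push Not at hc
    obtain ⟨l₀, hl₀⟩ := hhigh (r * k) ((γ (r * k) - γ r) / 2) (by linarith)
    obtain ⟨Y, hY, hYc⟩ := hlow r ((l₀ + 1) * k)
    rw [EXT_split g Y (D * r) (l₀ + 1) k hk] at hYc
    push_cast at hYc
    have h2 : ∑ j ∈ range k, (γ (r * k) - (γ (r * k) - γ r) / 2) * ((l₀ + 1 : ℕ) : ℝ) ≤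
        ∑ j ∈ range k, (cw g (Y + D * r * j) (D * r * k) (l₀ + 1) : ℝ) := by
      apply Finset.sum_le_sum
      intro j _
      have h3 := hl₀ (l₀ + 1) (by omega) (Y + D * r * j)
        (dvd_add hY (by rw [mul_assoc]; exact dvd_mul_right D _))
      rw [← mul_assoc] at h3
      exact h3
    rw [Finset.sum_const, Finset.card_range, nsmul_eq_mul] at h2
    push_cast at h2
    have h4 : (0 : ℝ) < ((l₀ : ℝ) + 1) * k := by
      have : (1 : ℝ) ≤ k := by exact_mod_cast hk
      positivity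
    nlinarith
  -- the infimum
  set S : Set ℝ := {x | ∃ r : ℕ, 1 ≤ r ∧ x = γ r} with hS
  have hSne : S.Nonempty := ⟨γ 1, 1, le_rfl, rfl⟩
  have hSb : BddBelow S := ⟨0, by
    rintro x ⟨r, _, rfl⟩
    exact h0 r⟩
  have hinf0 : 0 ≤ sInf S := le_csInf hSne (by
    rintro x ⟨r, _, rfl⟩
    exact h0 r)
  have hinf1 : sInf S ≤ 1 := (csInf_le hSb ⟨1, le_rfl, rfl⟩).trans (h1 1)
  obtain ⟨x, ⟨r, hr, rfl⟩, hx⟩ := exists_lt_of_csInf_lt hSne (show sInf S < sInf S + ε by linarith)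
  obtain ⟨m, hm1, hm2, hm3⟩ := hBad (D * r) (Nat.one_le_iff_ne_zero.2 (Nat.mul_ne_zero (by omega) (by omega)))
  obtain ⟨k, rfl⟩ := hm2
  have hk : 1 ≤ k := by
    rcases Nat.eq_zero_or_pos k with h | h
    · rw [h, mul_zero] at hm1
      omega
    · exact h
  have hrk : 1 ≤ r * k := Nat.one_le_iff_ne_zero.2 (Nat.mul_ne_zero (by omega) (by omega))
  refine ⟨D * r * k, sInf S, hm1, by rw [mul_assoc]; exact dvd_mul_right D _, hm3, hinf0, hinf1, ?_, ?_⟩
  · intro l
    obtain ⟨Y, hY, hYc⟩ := hlow (r * k) l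
    refine ⟨Y, hY, ?_⟩
    rw [← mul_assoc] at hYc
    refine hYc.trans ?_
    have h2 := hmono r k hk
    exact mul_le_mul_of_nonneg_right (by linarith) (Nat.cast_nonneg l)
  · intro q hq
    obtain ⟨l₀, hl₀⟩ := hhigh (r * k * q) ε hε
    refine ⟨l₀, ?_⟩
    intro l hl Y hY
    have h2 := hl₀ l hl Y hY
    have h3 : D * (r * k * q) = D * r * k * q := by ring
    rw [h3] at h2
    refine le_trans ?_ h2
    have h4 : sInf S ≤ γ (r * k * q) := csInf_le hSb ⟨r * k * q, Nat.one_le_iff_ne_zero.2 (Nat.mul_ne_zero (by omega) (by omega)), rfl⟩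
    exact mul_le_mul_of_nonneg_right (by linarith) (Nat.cast_nonneg l)

end Pool.Agent.HF
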