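import Pool.Agent.helper19.HF.SpecD
import Pool.Agent.helper25.HF.FINZ

/-!
# Row hy:FINY (MP_bf63dc_nt)
-/

set_option autoImplicit false

namespace Pool.Agent.HF

open Finset Pool.Agent.AT Pool.Agent.IT

theorem FINY : FINY_stmt := by
  classical
  intro hyp a b ha hb hab s hs
  obtain ⟨D, hD, h⟩ := hyp a b ha hb hab (1 / 10 ^ 6) (by norm_num) (by norm_num)
  have hS : 1 ≤ s * D := Nat.mul_pos hs hD
  obtain ⟨L, hL⟩ := FINZ_unif a b D (s * D) _ hD hS (Dvd.intro_left s rfl) h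
  refine ⟨D * (L + 1), fun M hM y => ?_⟩
  have key : ∀ j ∈ range D,
      (1 / 2 + 3 / 10 ^ 6) * (#{t ∈ range ((M + D - 1 - j) / D) | Ad a b (y + s * ((j + D * t : ℕ) : ℤ))} : ℝ) ≤
        (#{t ∈ range ((M + D - 1 - j) / D) | TC a b (y + s * ((j + D * t : ℕ) : ℤ))} : ℝ) := by
    intro j hj
    rw [mem_range] at hj
    have hlen := FINZ_len D M L j hD hj hM
    generalize (M + D - 1 - j) / D = l at hlen ⊢
    have harg : ∀ t : ℕ, y + (s : ℤ) * ((j + D * t : ℕ) : ℤ) = (y + s * j) + ((s * D : ℕ) : ℤ) * (t : ℕ) := by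
      intro t; push_cast; ring
    by_cases hex : ∃ t : ℕ, Ad a b (y + s * ((j + D * t : ℕ) : ℤ))
    · obtain ⟨t₀, ht₀⟩ := hex
      have h1 := hL _ ht₀ l hlen (y + s * j) (by
        rw [harg]
        have e : (y + (s : ℤ) * j) - ((y + s * j) + ((s * D : ℕ) : ℤ) * (t₀ : ℕ)) = (D : ℤ) * (-(s * t₀)) := by
          push_cast; ring
        rw [e]
        exact dvd_mul_right _ _)
      have h2 : (cz (TC a b) (y + s * j) (s * D) l : ℝ) =
          (#{t ∈ range l | TC a b (y + s * ((j + D * t : ℕ) : ℤ))} : ℝ) := by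
        refine congrArg (fun z : Finset ℕ => ((#z : ℕ) : ℝ)) ?_
        ext t
        simp only [mem_filter]
        rw [harg]
      rw [h2] at h1
      have h3 : (#{t ∈ range l | Ad a b (y + s * ((j + D * t : ℕ) : ℤ))} : ℝ) ≤ l := by
        have := card_filter_le (range l) (fun t => Ad a b (y + s * ((j + D * t : ℕ) : ℤ)))
        rw [card_range] at this
        exact_mod_cast this
      have h4 : (1 / 2 + 3 / 10 ^ 6 : ℝ) * l = (2 * (1 / 4 + 1 / 500000) - 1 / 10 ^ 6) * l := by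
        norm_num
      have h5 : (1 / 2 + 3 / 10 ^ 6 : ℝ) * (#{t ∈ range l | Ad a b (y + s * ((j + D * t : ℕ) : ℤ))} : ℝ) ≤
          (1 / 2 + 3 / 10 ^ 6 : ℝ) * l := mul_le_mul_of_nonneg_left h3 (by norm_num)
      linarith
    · have h0 : #{t ∈ range l | Ad a b (y + s * ((j + D * t : ℕ) : ℤ))} = 0 := by
        rw [card_eq_zero, filter_eq_empty_iff]
        intro t _ ht
        exact hex ⟨t, ht⟩
      rw [h0, Nat.cast_zero, mul_zero]
      exact Nat.cast_nonneg _
  have hsum := sum_le_sum key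
  rw [← mul_sum] at hsum
  have s1 := FINZ_split D M hD (fun t => Ad a b (y + s * (t : ℕ)))
  have s2 := FINZ_split D M hD (fun t => TC a b (y + s * (t : ℕ)))
  have s1' := congrArg (fun n : ℕ => (n : ℝ)) s1
  have s2' := congrArg (fun n : ℕ => (n : ℝ)) s2
  simp only [Nat.cast_sum] at s1' s2'
  rw [← s1', ← s2'] at hsum
  exact hsum

end Pool.Agent.HF
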